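import Pool.Agent.Helper25.FN.Spec

namespace Pool.Agent.Helper88.FN.SYM1

open Pool.Agent.Helper25.FN
open scoped ContDiff

theorem base_pos {n : ℕ} (z : V n) : 1 ≤ 1 + nm z := by
  have : 0 ≤ nm z := Real.sqrt_nonneg _
  linarith

/-- one may take a nonnegative constant -/
theorem sym_bd {n : ℕ} {k : ℤ} {b : V n → ℂ} (h : Sym k b) (i : ℕ) :
    ∃ C : ℝ, 0 ≤ C ∧ ∀ z, ‖iteratedFDeriv ℝ i b z‖ ≤ C * (1 + nm z) ^ (k - i) := by
  obtain ⟨C, hC⟩ := h.2 i
  refine ⟨|C|, abs_nonneg _, fun z => (hC z).trans ?_⟩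
  apply mul_le_mul_of_nonneg_right (le_abs_self _)
  exact zpow_nonneg (by linarith [base_pos z]) _

theorem sym_mul {n : ℕ} (k l : ℤ) (a b : V n → ℂ) (ha : Sym k a) (hb : Sym l b) :
    Sym (k + l) (fun z => a z * b z) := by
  refine ⟨ha.1.mul hb.1, fun i => ?_⟩
  choose Ca hCa0 hCa using fun j => sym_bd ha j
  choose Cb hCb0 hCb using fun j => sym_bd hb j
  refine ⟨∑ j ∈ Finset.range (i + 1), (i.choose j : ℝ) * Ca j * Cb (i - j), fun z => ?_⟩
  refine (norm_iteratedFDeriv_mul_le (N := ∞) ha.1 hb.1 z (by exact_mod_cast le_top)).trans ?_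
  rw [Finset.sum_mul]
  apply Finset.sum_le_sum
  intro j hj
  have hj' : j ≤ i := Nat.lt_succ_iff.1 (Finset.mem_range.1 hj)
  have hb0 : (1 + nm z) ≠ 0 := by linarith [base_pos z]
  have hbp : 0 ≤ (1 + nm z) := by linarith [base_pos z]
  have e : (1 + nm z) ^ (k + l - (i : ℤ))
      = (1 + nm z) ^ (k - (j : ℤ)) * (1 + nm z) ^ (l - ((i - j : ℕ) : ℤ)) := by
    rw [← zpow_add₀ hb0]
    congr 1
    rw [Nat.cast_sub hj']
    ring
  rw [e]
  calc (i.choose j : ℝ) * ‖iteratedFDeriv ℝ j a z‖ * ‖iteratedFDeriv ℝ (i - j) b z‖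
      ≤ (i.choose j : ℝ) * (Ca j * (1 + nm z) ^ (k - (j : ℤ))) *
          (Cb (i - j) * (1 + nm z) ^ (l - ((i - j : ℕ) : ℤ))) := by
        apply mul_le_mul _ (hCb _ z) (norm_nonneg _)
        · exact mul_nonneg (Nat.cast_nonneg _) (mul_nonneg (hCa0 _) (zpow_nonneg hbp _))
        · exact mul_le_mul_of_nonneg_left (hCa _ z) (Nat.cast_nonneg _)
    _ = _ := by ring

theorem sym_add {n : ℕ} (k : ℤ) (a b : V n → ℂ) (ha : Sym k a) (hb : Sym k b) :
    Sym k (fun z => a z + b z) := by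
  refine ⟨ha.1.add hb.1, fun i => ?_⟩
  obtain ⟨Ca, -, hCa⟩ := sym_bd ha i
  obtain ⟨Cb, -, hCb⟩ := sym_bd hb i
  refine ⟨Ca + Cb, fun z => ?_⟩
  have hia : ContDiffAt ℝ (i : ℕ∞ω) a z := (ha.1.of_le (by exact_mod_cast le_top)).contDiffAt
  have hib : ContDiffAt ℝ (i : ℕ∞ω) b z := (hb.1.of_le (by exact_mod_cast le_top)).contDiffAt
  have e : iteratedFDeriv ℝ i (fun z => a z + b z) z
      = iteratedFDeriv ℝ i a z + iteratedFDeriv ℝ i b z := iteratedFDeriv_add_apply hia hib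
  rw [e, add_mul]
  exact (norm_add_le _ _).trans (add_le_add (hCa z) (hCb z))

theorem sym_mono {n : ℕ} (k l : ℤ) (a : V n → ℂ) (hkl : k ≤ l) (ha : Sym k a) : Sym l a := by
  refine ⟨ha.1, fun i => ?_⟩
  obtain ⟨C, hC0, hC⟩ := sym_bd ha i
  refine ⟨C, fun z => (hC z).trans ?_⟩
  apply mul_le_mul_of_nonneg_left _ hC0
  exact zpow_le_zpow_right₀ (base_pos z) (by omega)

theorem sym_const {n : ℕ} (c : ℂ) : Sym 0 (fun _ : V n => c) := by
  refine ⟨contDiff_const, fun i => ?_⟩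
  rcases Nat.eq_zero_or_pos i with rfl | hi
  · refine ⟨‖c‖, fun z => ?_⟩
    rw [norm_iteratedFDeriv_zero]
    simp
  · refine ⟨0, fun z => ?_⟩
    rw [iteratedFDeriv_const_of_ne hi.ne']
    simp

theorem sym_coord {n : ℕ} (j : Fin n) : Sym 1 (fun z : V n => z j) := by
  obtain ⟨L, hL⟩ : ∃ L : V n →L[ℝ] ℂ, ∀ z, L z = z j :=
    ⟨ContinuousLinearMap.proj (R := ℝ) (φ := fun _ : Fin n => ℂ) j, fun z => rfl⟩
  have hfun : (fun z : V n => z j) = fun z => L z := by ext z; rw [hL]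
  have hcoord : ∀ z : V n, ‖z j‖ ≤ nm z := by
    intro z
    apply Real.le_sqrt_of_sq_le
    exact Finset.single_le_sum (f := fun j => ‖z j‖ ^ 2) (fun i _ => sq_nonneg _)
      (Finset.mem_univ j)
  rw [hfun]
  refine ⟨L.contDiff, fun i => ?_⟩
  have hfd : fderiv ℝ (fun z => L z) = fun _ => L := by
    ext1 z
    exact L.fderiv
  rcases i with _ | i
  · refine ⟨1, fun z => ?_⟩
    rw [norm_iteratedFDeriv_zero, hL]
    have := hcoord z
    have e : (1 + nm z) ^ ((1 : ℤ) - ((0 : ℕ) : ℤ)) = 1 + nm z := by simp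
    rw [e]
    linarith
  · rcases Nat.eq_zero_or_pos i with rfl | hi
    · refine ⟨‖L‖, fun z => ?_⟩
      rw [← norm_iteratedFDeriv_fderiv, hfd, norm_iteratedFDeriv_zero]
      simp
    · refine ⟨0, fun z => ?_⟩
      rw [← norm_iteratedFDeriv_fderiv, hfd, iteratedFDeriv_const_of_ne hi.ne']
      simp

theorem sym_wd {n : ℕ} (k : ℤ) (a : V n → ℂ) (j : Fin n) (ha : Sym k a) :
    Sym (k - 1) (wd j a) := by
  obtain ⟨T, hT⟩ : ∃ T : (V n →L[ℝ] ℂ) →L[ℝ] ℂ, ∀ l : V n →L[ℝ] ℂ,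
      T l = (l (Pi.single j 1) - Complex.I * l (Pi.single j Complex.I)) / 2 := by
    refine ⟨(ContinuousLinearMap.mul ℝ ℂ (1 / 2)).comp
      (ContinuousLinearMap.apply ℝ ℂ (Pi.single j 1 : V n) -
        (ContinuousLinearMap.mul ℝ ℂ Complex.I).comp
          (ContinuousLinearMap.apply ℝ ℂ (Pi.single j Complex.I : V n))), fun l => ?_⟩
    simp
    ring
  have hfun : wd j a = T ∘ (fderiv ℝ a) := by
    ext z
    simp only [wd, Function.comp_apply, hT]
  have hfd : ContDiff ℝ ∞ (fderiv ℝ a) := ha.1.fderiv_right (by simp)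
  refine ⟨?_, fun i => ?_⟩
  · rw [hfun]
    exact T.contDiff.comp hfd
  · obtain ⟨C, hC0, hC⟩ := sym_bd ha (i + 1)
    refine ⟨‖T‖ * C, fun z => ?_⟩
    rw [hfun]
    refine (T.norm_iteratedFDeriv_comp_left (N := ∞) hfd.contDiffAt
      (by exact_mod_cast le_top)).trans ?_
    rw [norm_iteratedFDeriv_fderiv, mul_assoc]
    apply mul_le_mul_of_nonneg_left _ (norm_nonneg _)
    have h := hC z
    have e : k - ((i + 1 : ℕ) : ℤ) = k - 1 - (i : ℤ) := by push_cast; ring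
    rwa [e] at h

theorem main : S_SYM1 := fun _ =>
  ⟨fun k l a b => sym_mul k l a b, fun k a b => sym_add k a b, fun k l a => sym_mono k l a,
    fun c => sym_const c, fun j => sym_coord j, fun k a j => sym_wd k a j⟩

end Pool.Agent.Helper88.FN.SYM1
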